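import Pool.Agent.U167.SA.Stm7
import Pool.Agent.U578.SA.KEY

/-!
Project SA (helper167), package KEYXS (helper653): the key lemma for general targets, slit plane.
-/

set_option autoImplicit false

namespace Pool.Agent.U653.SA

open H974 Pool.Agent.U167.SA
open Pool.Agent.U578.SA (mem_boxE_ends last_exit exit_box)

/-- A path either avoids the edges of the box, or visits a vertex of the box. -/
theorem avoid_or_visit {G : Set Edg} {r : ℕ} {u v : Vtx} (h : Reach G u v) :
    Reach (G \ ↑(boxE r)) u v ∨ ∃ w, inB r w ∧ Reach G u w ∧ Reach G w v := by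
  induction h with
  | refl => exact Or.inl (Reach.refl _ _)
  | @tail v' v'' h1 hs ih =>
    have hstep : Reach G v' v'' := Adj.reach hs
    obtain ⟨e, he, hc⟩ := hs
    by_cases hb : e ∈ boxE r
    · refine Or.inr ⟨v'', ?_, Reach.trans h1 hstep, Reach.refl _ _⟩
      obtain ⟨h1, h2⟩ := mem_boxE_ends hb
      rcases hc with ⟨h3, h4⟩ | ⟨h3, h4⟩
      · rw [← h4]; exact h2
      · rw [← h3]; exact h1
    · rcases ih with ih | ⟨w, hw, hr, hr'⟩
      · exact Or.inl (ih.trans (Adj.reach ⟨e, ⟨he, by simpa using hb⟩, hc⟩))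
      · exact Or.inr ⟨w, hw, hr, hr'.trans hstep⟩

theorem far_out {r R : ℕ} (h : r ≤ R) {v : Vtx} (hv : ¬ inB R v) :
    v.1 ≤ -(r:ℤ) ∨ (r:ℤ) ≤ v.1 ∨ v.2 ≤ -(r:ℤ) ∨ (r:ℤ) ≤ v.2 := by
  simp only [inB, inR] at hv
  omega

/-- package KEYXS -/
theorem t_KEYXS : KeyXSStm := by
  intro h s hs _ Gi Go Gm hGi hGo hGm F F' hQ
  set X := mix (boxE (16*s)) F F' with hX
  obtain ⟨hB1, hB2, hR⟩ := hQ
  have hs' : (0:ℤ) < s := by exact_mod_cast hs
  -- the hubs
  obtain ⟨z1, hz1⟩ := h (4*s) (by omega) X Gm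
    (by
      intro e he he'
      apply hGm e
      · exact boxE_mono (by omega) he
      · intro h'
        exact he' (boxE_mono (by omega) h')) hB1
  obtain ⟨z2, hz2⟩ := h (20*s) (by omega) X Gm
    (by
      intro e he he'
      apply hGm e
      · exact boxE_mono (by omega) he
      · intro h'
        exact he' (boxE_mono (by omega) h')) hB2
  have e1 : 4 * (4 * s) = 16 * s := by ring
  have e2 : 4 * (20 * s) = 80 * s := by ring
  rw [e1] at hz1
  rw [e2] at hz2
  have mono : ∀ (k : ℕ) (x y : Vtx), Reach (↑X ∩ Gm ∩ ↑(boxE k)) x y → Reach (↑X ∩ Gm) x y :=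
    fun k x y hr => hr.mono Set.inter_subset_left
  -- paths of the outer configuration outside the box
  have hout : ∀ (k : ℕ), 16 * s ≤ k → ∀ x y : Vtx, Reach ((↑F' ∩ Go) \ ↑(boxE k)) x y →
      Reach (↑X ∩ Gm) x y := by
    intro k hk x y hr
    apply hr.mono
    rintro e ⟨⟨h1, h2⟩, h3⟩
    have h3' : e ∉ boxE (16*s) := fun h4 => h3 (by
      have := boxE_mono hk h4
      exact this)
    refine ⟨?_, (hGo e h3').mp h2⟩
    have h1' : e ∈ F' := h1
    show e ∈ mix (boxE (16*s)) F F'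
    simp only [mix, Finset.mem_union, Finset.mem_inter, Finset.mem_sdiff]
    exact Or.inr ⟨h1', h3'⟩
  -- to the outer hub
  have hub : ∀ w v : Vtx, inB (20*s-1) w → ¬ inB (80*s+1) v → Reach (↑X ∩ Gm) w v →
      Reach (↑X ∩ Gm) w z2 := by
    intro w v hw hv hr
    obtain ⟨w', hw', hr'⟩ := exit_box (r := 80*s) (inB_mono (by omega) hw) hr
      (far_out (by omega) hv)
    exact mono (80*s) _ _ (hz2 _ w' hw hw' hr')
  -- the radial crossing
  obtain ⟨y, y', hy, hy', hrad⟩ := hR
  have hradJ : Reach (↑X ∩ Gm) ((0:ℤ), y) ((80*s+1 : ℤ), y') := by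
    apply hrad.mono
    rintro e ⟨h1, h2⟩
    refine ⟨h1, ?_⟩
    have h2' : e ∈ LRE 0 (80*s+1) (-(3*s)) (-(2*s)) := h2
    obtain ⟨x0, y0, _ | _⟩ := e
    · rw [mem_LRE_false] at h2'
      refine (hGm _ ?_ ?_).mpr ?_
      · simp only [boxE, mem_RE_false]; push_cast; omega
      · simp only [boxE, mem_RE_false]
        omega
      · simp only [Slt, Set.mem_ofPred_eq, src_mk, tgt_false, col, ht]
        omega
    · rw [mem_LRE_true] at h2'
      refine (hGm _ ?_ ?_).mpr ?_
      · simp only [boxE, mem_RE_true]; push_cast; omega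
      · simp only [boxE, mem_RE_true]
        omega
      · simp only [Slt, Set.mem_ofPred_eq, src_mk, tgt_true, col, ht]
        omega
  have hr0 : inB (4*s-1) ((0:ℤ), y) := by
    simp only [inB, inR]
    push_cast [Nat.cast_sub (show 1 ≤ 4*s by omega)]
    omega
  have r2 : Reach (↑X ∩ Gm) ((0:ℤ), y) z1 := by
    obtain ⟨w, hw, hr⟩ := exit_box (r := 16*s) (inB_mono (by omega) hr0) hradJ
      (by right; left; push_cast; omega)
    exact mono (16*s) _ _ (hz1 _ w hr0 hw hr)
  have r3 : Reach (↑X ∩ Gm) ((0:ℤ), y) z2 := by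
    obtain ⟨w, hw, hr⟩ := exit_box (r := 80*s) (inB_mono (by omega) hr0) hradJ
      (by right; left; push_cast; omega)
    exact mono (80*s) _ _ (hz2 _ w (inB_mono (by omega) hr0) hw hr)
  constructor
  · intro A B T T' hA hB hT hT' hHi hHo
    -- the inner arm
    obtain ⟨u, huA, v, hv, huv⟩ := hHi
    have hu := hA u huA
    have r1 : Reach (↑X ∩ Gm) u z1 := by
      obtain ⟨w, hw, hr⟩ := exit_box (r := 16*s) (inB_mono (by omega) hu) huv
        (far_out (by omega) (hT v hv))
      apply mono (16*s)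
      apply hz1 u w (inB_mono (by omega) hu) hw
      apply hr.mono
      rintro e ⟨⟨h1, h2⟩, h3⟩
      have h3' : e ∈ boxE (16*s) := h3
      refine ⟨⟨?_, (hGi e h3').mp h2⟩, h3⟩
      have h1' : e ∈ F := h1
      show e ∈ mix (boxE (16*s)) F F'
      simp only [mix, Finset.mem_union, Finset.mem_inter, Finset.mem_sdiff]
      exact Or.inl ⟨h1', h3'⟩
    -- the outer arm
    obtain ⟨u', huB, v', hv', huv'⟩ := hHo
    have hu' := hB u' huB
    obtain ⟨w3, hw3, hr3⟩ := last_exit (r := 20*s-1) (inB_mono (by omega) hu') huv'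
    have r4 : Reach (↑X ∩ Gm) w3 v' := hout (20*s-1) (by omega) _ _ hr3
    have r5 := hub w3 v' hw3 (hT' v' hv') r4
    exact ⟨u, huA, v', hv', (((r1.trans r2.symm).trans r3).trans r5.symm).trans r4⟩
  · intro B T hB hT hHo
    obtain ⟨b, hb, t, ht, hbt⟩ := hHo
    refine ⟨b, hb, t, ht, ?_⟩
    rcases avoid_or_visit (r := 20*s-1) hbt with hr | ⟨w, hw, hr, hr'⟩
    · exact hout (20*s-1) (by omega) _ _ hr
    · obtain ⟨w1, hw1, q1⟩ := last_exit hw hr.symm
      obtain ⟨w2, hw2, q2⟩ := last_exit hw hr'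
      have r4 := hout (20*s-1) (by omega) _ _ q1
      have r5 := hout (20*s-1) (by omega) _ _ q2
      have r6 := hub w1 b hw1 (hB b hb) r4
      have r7 := hub w2 t hw2 (hT t ht) r5
      exact ((r4.symm.trans r6).trans r7.symm).trans r5

end Pool.Agent.U653.SA
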